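import Mathlib

/-!
# Fourth moment of Rademacher sums in a Hilbert space

MP_f992e4_an, project HYB (leader helper94), module FOURTH by helper62.
-/

set_option linter.dupNamespace false

namespace Pool.Agent.Helper94.HT

open Finset

section FOURTH

variable {E : Type} [NormedAddCommGroup E] [InnerProductSpace ℝ E] {W : Type} [Fintype W]
    [DecidableEq W]

set_option linter.unusedSectionVars false

/-- partial Rademacher sum -/
noncomputable def rsum (u : W → E) (S : Finset W) (ε : W → ℤˣ) : E :=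
  ∑ w ∈ S, ((ε w : ℤ) : ℝ) • u w

lemma rsum_flip (u : W → E) (S : Finset W) {w0 : W} (h0 : w0 ∉ S) (ε : W → ℤˣ) :
    rsum u S ((Pi.mulSingle w0 (-1)) * ε) = rsum u S ε := by
  unfold rsum
  apply Finset.sum_congr rfl
  intro w hw
  have hne : w ≠ w0 := fun h => h0 (h ▸ hw)
  simp [Pi.mulSingle_eq_of_ne hne]

lemma rsum_insert (u : W → E) (S : Finset W) {w0 : W} (h0 : w0 ∉ S) (ε : W → ℤˣ) :
    rsum u (insert w0 S) ε = rsum u S ε + ((ε w0 : ℤ) : ℝ) • u w0 := by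
  unfold rsum
  rw [Finset.sum_insert h0, add_comm]

lemma rsum_insert_flip (u : W → E) (S : Finset W) {w0 : W} (h0 : w0 ∉ S) (ε : W → ℤˣ) :
    rsum u (insert w0 S) ((Pi.mulSingle w0 (-1)) * ε) = rsum u S ε - ((ε w0 : ℤ) : ℝ) • u w0 := by
  rw [rsum_insert u S h0, rsum_flip u S h0]
  simp [sub_eq_add_neg]

/-- symmetrisation of a sum over signs -/
lemma sum_signs_flip (F : (W → ℤˣ) → ℝ) (w0 : W) :
    ∑ ε, F ε = (∑ ε, (F ε + F ((Pi.mulSingle w0 (-1)) * ε))) / 2 := by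
  have h : ∑ ε, F ((Pi.mulSingle w0 (-1)) * ε) = ∑ ε, F ε :=
    Fintype.sum_equiv (Equiv.mulLeft (Pi.mulSingle w0 (-1) : W → ℤˣ)) _ _ (fun ε => rfl)
  rw [Finset.sum_add_distrib, h]; ring

lemma sign_sq (e : ℤˣ) : (((e : ℤ) : ℝ)) ^ 2 = 1 := by
  rcases Int.units_eq_one_or e with h | h <;> simp [h]

lemma pm_sq (x y : E) : ‖x + y‖ ^ 2 + ‖x - y‖ ^ 2 = 2 * (‖x‖ ^ 2 + ‖y‖ ^ 2) := by
  rw [norm_add_sq_real, norm_sub_sq_real]; ring

lemma pm_fourth (x y : E) : ‖x + y‖ ^ 4 + ‖x - y‖ ^ 4 ≤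
    2 * ‖x‖ ^ 4 + 12 * (‖x‖ ^ 2 * ‖y‖ ^ 2) + 2 * ‖y‖ ^ 4 := by
  have h1 : ‖x + y‖ ^ 4 = (‖x + y‖ ^ 2) ^ 2 := by ring
  have h2 : ‖x - y‖ ^ 4 = (‖x - y‖ ^ 2) ^ 2 := by ring
  rw [h1, h2, norm_add_sq_real, norm_sub_sq_real]
  have h3 := abs_real_inner_le_norm x y
  have h4 : (inner ℝ x y) ^ 2 ≤ (‖x‖ * ‖y‖) ^ 2 := by
    rw [← sq_abs (inner ℝ x y)]; gcongr
  nlinarith [h4]

lemma second_sum (u : W → E) (S : Finset W) :
    ∑ ε : W → ℤˣ, ‖rsum u S ε‖ ^ 2 = 2 ^ (Fintype.card W) * ∑ w ∈ S, ‖u w‖ ^ 2 := by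
  induction S using Finset.induction_on with
  | empty => simp [rsum]
  | insert w0 S h0 ih =>
    rw [sum_signs_flip _ w0, Finset.sum_insert h0]
    have h : ∀ ε : W → ℤˣ, ‖rsum u (insert w0 S) ε‖ ^ 2 +
        ‖rsum u (insert w0 S) ((Pi.mulSingle w0 (-1)) * ε)‖ ^ 2 =
        2 * ‖rsum u S ε‖ ^ 2 + 2 * ‖u w0‖ ^ 2 := by
      intro ε
      rw [rsum_insert u S h0, rsum_insert_flip u S h0, pm_sq, norm_smul, mul_pow, Real.norm_eq_abs,
        sq_abs, sign_sq]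
      ring
    rw [Finset.sum_congr rfl fun ε _ => h ε, Finset.sum_add_distrib, ← Finset.mul_sum, ih,
      Finset.sum_const, Finset.card_univ, Fintype.card_fun, Fintype.card_units_int, nsmul_eq_mul]
    push_cast
    ring

lemma fourth_sum (u : W → E) (S : Finset W) :
    ∑ ε : W → ℤˣ, ‖rsum u S ε‖ ^ 4 ≤ 2 ^ (Fintype.card W) * (3 * (∑ w ∈ S, ‖u w‖ ^ 2) ^ 2) := by
  induction S using Finset.induction_on with
  | empty => simp [rsum]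
  | insert w0 S h0 ih =>
    rw [sum_signs_flip _ w0, Finset.sum_insert h0]
    have h : ∀ ε : W → ℤˣ, ‖rsum u (insert w0 S) ε‖ ^ 4 +
        ‖rsum u (insert w0 S) ((Pi.mulSingle w0 (-1)) * ε)‖ ^ 4 ≤
        2 * ‖rsum u S ε‖ ^ 4 + 12 * ‖u w0‖ ^ 2 * ‖rsum u S ε‖ ^ 2 + 2 * ‖u w0‖ ^ 4 := by
      intro ε
      rw [rsum_insert u S h0, rsum_insert_flip u S h0]
      refine (pm_fourth _ _).trans (le_of_eq ?_)
      have hn : ‖((ε w0 : ℤ) : ℝ) • u w0‖ = ‖u w0‖ := by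
        rw [norm_smul]
        rcases Int.units_eq_one_or (ε w0) with h | h <;> simp [h]
      rw [hn]; ring
    have h2 := Finset.sum_le_sum fun ε (_ : ε ∈ (univ : Finset (W → ℤˣ))) => h ε
    have h3 : ∑ ε : W → ℤˣ, (2 * ‖rsum u S ε‖ ^ 4 + 12 * ‖u w0‖ ^ 2 * ‖rsum u S ε‖ ^ 2
        + 2 * ‖u w0‖ ^ 4) = 2 * ∑ ε : W → ℤˣ, ‖rsum u S ε‖ ^ 4
        + 12 * ‖u w0‖ ^ 2 * (2 ^ (Fintype.card W) * ∑ w ∈ S, ‖u w‖ ^ 2)
        + 2 ^ (Fintype.card W) * (2 * ‖u w0‖ ^ 4) := by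
      rw [Finset.sum_add_distrib, Finset.sum_add_distrib, ← Finset.mul_sum, ← Finset.mul_sum,
        second_sum, Finset.sum_const, Finset.card_univ, Fintype.card_fun, Fintype.card_units_int,
        nsmul_eq_mul]
      push_cast
      ring
    rw [h3] at h2
    have hN : (0 : ℝ) < 2 ^ Fintype.card W := by positivity
    have hσ : 0 ≤ ∑ w ∈ S, ‖u w‖ ^ 2 := Finset.sum_nonneg fun w _ => by positivity
    set σ := ∑ w ∈ S, ‖u w‖ ^ 2
    set N : ℝ := 2 ^ Fintype.card W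
    have hu : 0 ≤ ‖u w0‖ ^ 2 := by positivity
    have h4 : ‖u w0‖ ^ 4 = (‖u w0‖ ^ 2) ^ 2 := by ring
    rw [h4] at h2
    set b := ‖u w0‖ ^ 2
    have h5 : N * (3 * (b + σ) ^ 2) - (N * (3 * σ ^ 2) + 6 * b * (N * σ) + N * b ^ 2) =
      2 * (N * b ^ 2) := by ring
    have h6 : 0 ≤ N * b ^ 2 := by positivity
    linarith

lemma fourth (u : W → E) :
    (∑ ε : W → ℤˣ, ‖∑ w, ((ε w : ℤ) : ℝ) • u w‖ ^ 4) / (2 : ℝ) ^ (Fintype.card W)
      ≤ 3 * (∑ w, ‖u w‖ ^ 2) ^ 2 := by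
  rw [div_le_iff₀ (by positivity)]
  have h := fourth_sum u univ
  unfold rsum at h
  linarith

end FOURTH

end Pool.Agent.Helper94.HT
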