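import Mathlib
import Pool.Agent.Helper24.QR.Mix
import Pool.Agent.Helper94.HT.Defs
import Pool.Agent.Helper37.HT.COND

/-!
# The partially shared triple product

MP_f992e4_an, project HYB (leader helper94), module TRIP by helper62.
-/

set_option linter.dupNamespace false

namespace Pool.Agent.Helper94.HT

open Finset Pool.Agent.Helper11.Cube Pool.Agent.Helper11.AA Pool.Agent.Helper24.QR

private lemma trip_iff {n : ℕ} {A B K : Finset (Fin n)} (hAB : Disjoint A B)
    (hAK : Disjoint A K) (hBK : Disjoint B K) (S U : Finset (Fin n)) :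
    (S ⊆ A ∪ B ∧ S \ A = U \ K) ↔ (S \ U ⊆ A ∧ S ∩ U ⊆ B ∧ U \ S ⊆ K) := by
  have h1 : ∀ i, i ∈ A → i ∈ B → False := fun i ha hb => disjoint_left.1 hAB ha hb
  have h2 : ∀ i, i ∈ A → i ∈ K → False := fun i ha hb => disjoint_left.1 hAK ha hb
  have h3 : ∀ i, i ∈ B → i ∈ K → False := fun i ha hb => disjoint_left.1 hBK ha hb
  simp only [subset_iff, mem_union, mem_sdiff, mem_inter, Finset.ext_iff]
  constructor
  · rintro ⟨e1, e2⟩
    refine ⟨fun i => ?_, fun i => ?_, fun i => ?_⟩ <;>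
    · have a1 := e1 (x := i); have a2 := e2 i
      have b1 := h1 i; have b2 := h2 i; have b3 := h3 i
      tauto
  · rintro ⟨e1, e2, e3⟩
    refine ⟨fun i => ?_, fun i => ?_⟩ <;>
    · have a1 := e1 (x := i); have a2 := e2 (x := i); have a3 := e3 (x := i)
      have b1 := h1 i; have b2 := h2 i; have b3 := h3 i
      tauto

private lemma trip_symm {n : ℕ} {A B K : Finset (Fin n)} (hAB : Disjoint A B)
    (hAK : Disjoint A K) (hBK : Disjoint B K) (S U : Finset (Fin n))
    (h : S \ U ⊆ A ∧ S ∩ U ⊆ B ∧ U \ S ⊆ K) :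
    symmDiff (S ∩ A) (U ∩ K) = symmDiff S U := by
  have h1 : ∀ i, i ∈ A → i ∈ B → False := fun i ha hb => disjoint_left.1 hAB ha hb
  have h2 : ∀ i, i ∈ A → i ∈ K → False := fun i ha hb => disjoint_left.1 hAK ha hb
  have h3 : ∀ i, i ∈ B → i ∈ K → False := fun i ha hb => disjoint_left.1 hBK ha hb
  simp only [subset_iff, mem_sdiff, mem_inter] at h
  obtain ⟨e1, e2, e3⟩ := h
  ext i
  simp only [mem_symmDiff, mem_inter]
  have a1 := e1 (x := i); have a2 := e2 (x := i); have a3 := e3 (x := i)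
  have b1 := h1 i; have b2 := h2 i; have b3 := h3 i
  tauto

theorem trip {n : ℕ} (g b N : Cube n → ℝ) (A B K : Finset (Fin n)) (hAB : Disjoint A B)
    (hAK : Disjoint A K) (hBK : Disjoint B K) :
    ex (fun w => ex (fun y => cond (A ∪ B) g (mix A w y) * b (mix K w y) * N w))
      = ∑ S : Finset (Fin n), ∑ U : Finset (Fin n),
          if S \ U ⊆ A ∧ S ∩ U ⊆ B ∧ U \ S ⊆ K then
            coef g S * coef b U * coef N (symmDiff S U) else 0 := by
  have hc : ∀ w y : Cube n, cond (A ∪ B) g (mix A w y)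
      = ∑ S : Finset (Fin n), (if S ⊆ A ∪ B then coef g S else 0)
        * (chi (S ∩ A) w * chi (S \ A) y) := by
    intro w y
    rw [inversion (cond (A ∪ B) g) (mix A w y)]
    refine sum_congr rfl fun S _ => ?_
    rw [coef_cond, chi_mix]
  have hb : ∀ w y : Cube n, b (mix K w y)
      = ∑ U : Finset (Fin n), coef b U * (chi (U ∩ K) w * chi (U \ K) y) := by
    intro w y
    rw [inversion b (mix K w y)]
    refine sum_congr rfl fun S _ => ?_
    rw [chi_mix]
  have h1 : ∀ w y : Cube n, cond (A ∪ B) g (mix A w y) * b (mix K w y) * N w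
      = ∑ S : Finset (Fin n), ∑ U : Finset (Fin n),
        (((if S ⊆ A ∪ B then coef g S else 0) * coef b U)
          * (N w * chi (symmDiff (S ∩ A) (U ∩ K)) w)) * (chi (S \ A) y * chi (U \ K) y) := by
    intro w y
    rw [hc, hb, sum_mul_sum, sum_mul]
    refine sum_congr rfl fun S _ => ?_
    rw [sum_mul]
    refine sum_congr rfl fun U _ => ?_
    rw [← chi_mul_chi]
    ring
  have h2 : ∀ w : Cube n, ex (fun y => cond (A ∪ B) g (mix A w y) * b (mix K w y) * N w)
      = ∑ S : Finset (Fin n), ∑ U : Finset (Fin n),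
        (((if S ⊆ A ∪ B then coef g S else 0) * coef b U) * (if S \ A = U \ K then 1 else 0))
          * (N w * chi (symmDiff (S ∩ A) (U ∩ K)) w) := by
    intro w
    rw [ex_congr (h1 w), ex_sum]
    refine sum_congr rfl fun S _ => ?_
    rw [ex_sum]
    refine sum_congr rfl fun U _ => ?_
    rw [ex_const_mul, ex_chi_mul_chi]
    ring
  rw [ex_congr h2, ex_sum]
  refine sum_congr rfl fun S _ => ?_
  rw [ex_sum]
  refine sum_congr rfl fun U _ => ?_
  rw [ex_const_mul]
  change _ * coef N (symmDiff (S ∩ A) (U ∩ K)) = _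
  have hiff := trip_iff hAB hAK hBK S U
  by_cases h : S \ U ⊆ A ∧ S ∩ U ⊆ B ∧ U \ S ⊆ K
  · rw [if_pos h, trip_symm hAB hAK hBK S U h, if_pos (hiff.2 h).1, if_pos (hiff.2 h).2]
    ring
  · rw [if_neg h]
    by_cases h3 : S ⊆ A ∪ B
    · have h4 : ¬ S \ A = U \ K := fun h5 => h (hiff.1 ⟨h3, h5⟩)
      rw [if_neg h4]; ring
    · rw [if_neg h3]; ring

end Pool.Agent.Helper94.HT
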